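import Pool.Agent.N446.IG.Graph
import Pool.Agent.N446.IG.Tab2
import Pool.Agent.N446.IG.Tab4
import Pool.Agent.N446.IG.Tab6
import Pool.Agent.N446.IG.Chk8a
import Pool.Agent.N446.IG.Chk8b
import Pool.Agent.N446.IG.Chk8c
import Pool.Agent.N446.IG.Chk8d
import Pool.Agent.N446.IG.Chk8e

/-!
# MP_3f3a3b_co: Class 2 indifference graphs of maximum degree at most nine

Every finite connected indifference graph of maximum degree `Δ ≤ 9` (any number of vertices) which
has no proper edge colouring with `Δ` colours has a vertex whose closed neighbourhood induces an
overfull subgraph of maximum degree `Δ`. For odd `Δ` this is known; the new cases are `Δ = 4, 6, 8`.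

Proof: the graph is coloured from left to right. The last vertices of a prefix which may get more
neighbours are described by their numbers of neighbours and of non-adjacent pairs in their closed
neighbourhoods; for `Δ = 4, 6, 8` there are only 14, 60 and 249 such descriptions as long as no
closed neighbourhood is overfull. A table gives for each of them patterns of used colours which
occur in every graph with this description; that every pattern can be reached from a pattern of the
previous description is checked with certificates by the kernel.
-/

set_option autoImplicit false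

namespace Pool.Agent.Results.MP_3f3a3b_co.MaxDegreeNine

open Pool.Agent.N446.IG

theorem chk8 : chkTab 8 4 tab8 = true := by
  have h1 : (decide (tab8[0]? = some ([], [0], [])) &&
      (match tab8[1]? with
       | none => false
       | some r => decide (r.1 = [(0, 0)]) && decide (r.2.1 = [0]))) = true := by decide +kernel
  have h2 : tab8.all (chkRow 8 4 tab8) = true := by
    have e : ∀ T : Row → Bool, tab8.all T =
        (tab8_0.all T && tab8_1.all T && tab8_2.all T && tab8_3.all T && tab8_4.all T) := by
      intro T
      rw [tab8, List.all_append, List.all_append, List.all_append, List.all_append]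
    rw [e, chk8_0, chk8_1, chk8_2, chk8_3, chk8_4]
    rfl
  rw [chkTab, Bool.and_eq_true]
  exact ⟨h1, h2⟩

/-- Every finite connected indifference graph of maximum degree at most nine with no proper edge
colouring using Δ colours has a vertex whose closed neighbourhood induces an overfull subgraph of
maximum degree Δ. -/
theorem result :
    ∀ (V : Type) [Fintype V] [DecidableEq V] (G : SimpleGraph V) [DecidableRel G.Adj],
      G.Connected →
      (∃ f : V → ℕ, Function.Injective f ∧
        ∀ S : Finset V, G.IsClique (S : Set V) →
          (∀ T : Finset V, G.IsClique (T : Set V) → S ⊆ T → T = S) →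
          ∀ u ∈ S, ∀ w ∈ S, ∀ x : V, f u ≤ f x → f x ≤ f w → x ∈ S) →
      Finset.univ.sup (fun y : V => (Finset.univ.filter (fun z : V => G.Adj y z)).card) ≤ 9 →
      (¬ ∃ c : V → V → ℕ,
          (∀ u v : V, G.Adj u v → c u v = c v u) ∧
          (∀ u v : V, G.Adj u v →
            c u v < Finset.univ.sup
              (fun y : V => (Finset.univ.filter (fun z : V => G.Adj y z)).card)) ∧
          (∀ u v w : V, G.Adj u v → G.Adj u w → v ≠ w → c u v ≠ c u w)) →
      ∃ v : V,
        (∃ x : V, (x = v ∨ G.Adj v x) ∧
          ((Finset.univ.filter (fun y : V => y = v ∨ G.Adj v y)).filter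
              (fun z : V => G.Adj x z)).card
            = Finset.univ.sup
              (fun y : V => (Finset.univ.filter (fun z : V => G.Adj y z)).card)) ∧
        (∑ x ∈ Finset.univ.filter (fun y : V => y = v ∨ G.Adj v y),
            ((Finset.univ.filter (fun y : V => y = v ∨ G.Adj v y)).filter
              (fun z : V => G.Adj x z)).card)
          > 2 * Finset.univ.sup
                (fun y : V => (Finset.univ.filter (fun z : V => G.Adj y z)).card)
              * ((Finset.univ.filter (fun y : V => y = v ∨ G.Adj v y)).card / 2) := by
  intro V _ _ G _ hconn hf h9 hc
  obtain ⟨f, hfi, hfc⟩ := hf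
  have hne : Nonempty V := hconn.nonempty
  generalize hD : Finset.univ.sup
    (fun y : V => (Finset.univ.filter (fun z : V => G.Adj y z)).card) = D at h9 hc ⊢
  by_contra hno
  apply hc
  rcases Nat.even_or_odd' D with ⟨m, hm | hm⟩
  · have hm4 : m ≤ 4 := by omega
    interval_cases m
    · -- no edges
      refine ⟨fun _ _ => 0, fun _ _ _ => rfl, ?_, ?_⟩
      · intro u v huv
        exfalso
        have h1 : (Finset.univ.filter (fun z : V => G.Adj u z)).card ≤ D := by
          rw [← hD]
          exact Finset.le_sup
            (f := fun y : V => (Finset.univ.filter (fun z : V => G.Adj y z)).card)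
            (Finset.mem_univ u)
        have h2 : 0 < (Finset.univ.filter (fun z : V => G.Adj u z)).card :=
          Finset.card_pos.2 ⟨v, by simp [huv]⟩
        omega
      · intro u v w huv
        exfalso
        have h1 : (Finset.univ.filter (fun z : V => G.Adj u z)).card ≤ D := by
          rw [← hD]
          exact Finset.le_sup
            (f := fun y : V => (Finset.univ.filter (fun z : V => G.Adj y z)).card)
            (Finset.mem_univ u)
        have h2 : 0 < (Finset.univ.filter (fun z : V => G.Adj u z)).card :=
          Finset.card_pos.2 ⟨v, by simp [huv]⟩
        omega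
    · subst hm
      exact main (G := G) (D := 2) (m := 1) hfi hfc (Or.inr rfl) hD
        (fun n a => exists_coloring chk2) hno
    · subst hm
      exact main (G := G) (D := 4) (m := 2) hfi hfc (Or.inr rfl) hD
        (fun n a => exists_coloring chk4) hno
    · subst hm
      exact main (G := G) (D := 6) (m := 3) hfi hfc (Or.inr rfl) hD
        (fun n a => exists_coloring chk6) hno
    · subst hm
      exact main (G := G) (D := 8) (m := 4) hfi hfc (Or.inr rfl) hD
        (fun n a => exists_coloring chk8) hno
  · exact main (G := G) (D := D) (m := 0) hfi hfc (Or.inl rfl) hD
      (fun n a => odd_coloring (by omega) n a) hno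

end Pool.Agent.Results.MP_3f3a3b_co.MaxDegreeNine
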